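import Pool.Agent.Strip051.Main

/-! # Molnar's packing

For every width `w ≥ 2` a chain of triangular blocks of `(n + 1) (n + 2) / 2` discs each is a
packing of the strip whose density exists about every point and equals Molnar's `M(w)`. -/

namespace Pool.Agent.Strip051.LC.Final

open Pool.Agent.StripNear Pool.Agent.StripSquare Pool.Agent.Strip051
open Pool.Agent.StripTwo (rowNumber molnar)
open MeasureTheory Filter Topology

/-- The points of a block: `p.1` is the row, `p.2` the place in the row. -/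
def Tri (n : ℕ) : Finset (Σ _ : ℕ, ℕ) :=
  (Finset.range (n + 1)).sigma fun r => Finset.range (n + 1 - r)

theorem mem_tri {n : ℕ} {p : Σ _ : ℕ, ℕ} : p ∈ Tri n ↔ p.1 + p.2 ≤ n := by
  simp only [Tri, Finset.mem_sigma, Finset.mem_range]
  omega

theorem card_tri (n : ℕ) : 2 * (Tri n).card = (n + 1) * (n + 2) := by
  unfold Tri
  rw [Finset.card_sigma]
  simp only [Finset.card_range]
  induction n with
  | zero => simp
  | succ n ih =>
    rw [Finset.sum_range_succ']
    simp only [Nat.add_sub_add_right, Nat.sub_zero]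
    rw [mul_add, ih]
    ring

/-- Abscissa of a point of the block `m`, for the spacing one. -/
noncomputable def px (n : ℕ) (c : ℝ) (m : ℤ) (p : Σ _ : ℕ, ℕ) : ℝ :=
  m * (n / 2 + c) + p.2 + p.1 / 2

/-- Height of a point of the block `m`; the long row is at the bottom for even `m`, at the top for
odd `m`. -/
noncomputable def py (n : ℕ) (s : ℝ) (m : ℤ) (p : Σ _ : ℕ, ℕ) : ℝ :=
  if Even m then p.1 * h0 else s + (n - p.1) * h0

theorem sep_next {s : ℝ} (hs0 : 0 ≤ s) (hs1 : s < h0) {D : ℝ} {k : ℤ} (hD : g s + k / 2 ≤ D) :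
    1 ≤ D ^ 2 + (s - k * h0) ^ 2 := by
  have hg := g_gt_half hs0 hs1
  have hq := h0_sq
  have hp := h0_pos
  have hgs : g s ^ 2 = 1 - s ^ 2 := g_sq (by nlinarith)
  have hg1 := g_le_one s
  have hss : h0 * s ≤ 3 / 4 := by nlinarith
  have hss0 : 0 ≤ h0 * s := by positivity
  have key : ∀ a : ℝ, (g s + a / 2) ^ 2 + (s - a * h0) ^ 2 =
      1 + a * (a + g s - 2 * (h0 * s)) := by
    intro a
    linear_combination hgs + a ^ 2 * hq
  rcases le_or_gt 0 k with hk | hk
  · have hk0 : (0 : ℝ) ≤ k := by exact_mod_cast hk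
    have h1 : (g s + k / 2) ^ 2 ≤ D ^ 2 := pow_le_pow_left₀ (by linarith) hD 2
    have h2 := key k
    have h3 : 0 ≤ (k : ℝ) * (k + g s - 2 * (h0 * s)) := by
      rcases hk.eq_or_lt with h | h
      · rw [← h]
        simp
      · have h4 : (1 : ℝ) ≤ k := by exact_mod_cast h
        exact mul_nonneg hk0 (by linarith)
    linarith
  · rcases le_or_gt k (-2) with h | h
    · have h4 : (k : ℝ) ≤ -2 := by exact_mod_cast h
      have h5 : 2 * h0 ≤ s - k * h0 := by nlinarith
      nlinarith [sq_nonneg D]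
    · have h4 : k = -1 := by omega
      subst h4
      push_cast at hD ⊢
      have h1 : (g s + (-1) / 2) ^ 2 ≤ D ^ 2 := pow_le_pow_left₀ (by linarith) hD 2
      have h2 := key (-1)
      nlinarith

theorem sep_same {p p' : Σ _ : ℕ, ℕ} (hne : p ≠ p') :
    (1 : ℝ) ≤ (((p.2 : ℝ) + p.1 / 2) - (p'.2 + p'.1 / 2)) ^ 2 +
      ((p.1 : ℝ) * h0 - p'.1 * h0) ^ 2 := by
  have hq := h0_sq
  set a : ℤ := (p.2 : ℤ) - p'.2 with ha
  set b : ℤ := (p.1 : ℤ) - p'.1 with hb
  have e : (((p.2 : ℝ) + p.1 / 2) - (p'.2 + p'.1 / 2)) ^ 2 +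
      ((p.1 : ℝ) * h0 - p'.1 * h0) ^ 2 = ((a ^ 2 + a * b + b ^ 2 : ℤ) : ℝ) := by
    rw [ha, hb]
    push_cast
    linear_combination ((p.1 : ℝ) - p'.1) ^ 2 * hq
  rw [e]
  have h1 : 0 < a ^ 2 + a * b + b ^ 2 := by
    by_contra hcon
    have h2 : (2 * a + b) ^ 2 + 3 * b ^ 2 ≤ 0 := by nlinarith
    have hb0 : b = 0 := by
      by_contra hb'
      have : 0 < b ^ 2 := by positivity
      nlinarith [sq_nonneg (2 * a + b)]
    have ha0 : a = 0 := by
      rw [hb0] at h2
      by_contra ha'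
      have : 0 < a ^ 2 := by positivity
      nlinarith
    apply hne
    rcases p with ⟨r, i⟩
    rcases p' with ⟨r', i'⟩
    simp only at ha hb
    have e1 : r = r' := by omega
    have e2 : i = i' := by omega
    subst e1 e2
    rfl
  exact_mod_cast h1

theorem sep_le {n : ℕ} {s : ℝ} (hs0 : 0 ≤ s) (hs1 : s < h0) {m m' : ℤ} (hm : m ≤ m')
    {p p' : Σ _ : ℕ, ℕ} (hp : p ∈ Tri n) (hp' : p' ∈ Tri n) (hne : ¬ (m = m' ∧ p = p')) :
    1 ≤ (px n (g s) m p - px n (g s) m' p') ^ 2 + (py n s m p - py n s m' p') ^ 2 := by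
  have hg := g_gt_half hs0 hs1
  rw [mem_tri] at hp hp'
  have hp1 : (p.1 : ℝ) + p.2 ≤ n := by exact_mod_cast hp
  have hp2 : (p'.1 : ℝ) + p'.2 ≤ n := by exact_mod_cast hp'
  have c1 : (0 : ℝ) ≤ p.1 := Nat.cast_nonneg _
  have c2 : (0 : ℝ) ≤ p'.1 := Nat.cast_nonneg _
  have c3 : (0 : ℝ) ≤ p.2 := Nat.cast_nonneg _
  have c4 : (0 : ℝ) ≤ p'.2 := Nat.cast_nonneg _
  have cn : (0 : ℝ) ≤ n := Nat.cast_nonneg _
  rcases hm.eq_or_lt with h | h
  · subst h
    have h1 : p ≠ p' := fun e => hne ⟨rfl, e⟩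
    have h2 := sep_same h1
    have e : (py n s m p - py n s m p') ^ 2 = ((p.1 : ℝ) * h0 - p'.1 * h0) ^ 2 := by
      unfold py
      split_ifs
      · rfl
      · ring
    rw [e]
    have e2 : px n (g s) m p - px n (g s) m p' =
        ((p.2 : ℝ) + p.1 / 2) - (p'.2 + p'.1 / 2) := by
      unfold px
      ring
    rw [e2]
    exact h2
  · rcases (show m + 1 ≤ m' by omega).eq_or_lt with h1 | h1
    · subst h1
      set k : ℤ := (p.1 : ℤ) + p'.1 - n with hk
      have e : (py n s m p - py n s (m + 1) p') ^ 2 = (s - k * h0) ^ 2 := by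
        unfold py
        rw [hk]
        push_cast
        rcases Int.even_or_odd m with h2 | h2
        · have h3 : ¬ Even (m + 1) := by
            rw [Int.not_even_iff_odd]
            exact h2.add_one
          rw [if_pos h2, if_neg h3]
          ring
        · have h3 : Even (m + 1) := h2.add_one
          rw [if_neg (Int.not_even_iff_odd.2 h2), if_pos h3]
          ring
      rw [e]
      have h4 : g s + k / 2 ≤ px n (g s) (m + 1) p' - px n (g s) m p := by
        unfold px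
        rw [hk]
        push_cast
        linarith
      have h5 := sep_next hs0 hs1 h4
      have e3 : (px n (g s) m p - px n (g s) (m + 1) p') ^ 2 =
          (px n (g s) (m + 1) p' - px n (g s) m p) ^ 2 := by ring
      rw [e3]
      exact h5
    · have h2 : (m : ℝ) + 2 ≤ m' := by
        have : m + 2 ≤ m' := by omega
        exact_mod_cast this
      have h3 : 1 ≤ px n (g s) m' p' - px n (g s) m p := by
        unfold px
        nlinarith
      nlinarith [sq_nonneg (py n s m p - py n s m' p')]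

theorem sep {n : ℕ} {s : ℝ} (hs0 : 0 ≤ s) (hs1 : s < h0) {m m' : ℤ}
    {p p' : Σ _ : ℕ, ℕ} (hp : p ∈ Tri n) (hp' : p' ∈ Tri n) (hne : ¬ (m = m' ∧ p = p')) :
    1 ≤ (px n (g s) m p - px n (g s) m' p') ^ 2 + (py n s m p - py n s m' p') ^ 2 := by
  rcases le_total m m' with h | h
  · exact sep_le hs0 hs1 h hp hp' hne
  · have h1 := sep_le hs0 hs1 h hp' hp (fun e => hne ⟨e.1.symm, e.2.symm⟩)
    nlinarith

theorem py_mem {n : ℕ} {s : ℝ} (hs0 : 0 ≤ s) (m : ℤ) {p : Σ _ : ℕ, ℕ} (hp : p ∈ Tri n) :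
    0 ≤ py n s m p ∧ py n s m p ≤ n * h0 + s := by
  have hh := h0_pos
  rw [mem_tri] at hp
  have hp1 : (p.1 : ℝ) ≤ n := by
    have : p.1 ≤ n := by omega
    exact_mod_cast this
  have c1 : (0 : ℝ) ≤ p.1 := Nat.cast_nonneg _
  unfold py
  split_ifs
  · exact ⟨by positivity, by nlinarith⟩
  · exact ⟨by nlinarith, by nlinarith⟩

/-- The centres. -/
noncomputable def ctr (n : ℕ) (s : ℝ) (x : ℤ × Tri n) : E2 :=
  !₂[2 * px n (g s) x.1 x.2, 1 + 2 * py n s x.1 x.2]

theorem ctr_zero (n : ℕ) (s : ℝ) (x : ℤ × Tri n) : ctr n s x 0 = 2 * px n (g s) x.1 x.2 := rfl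

theorem ctr_one (n : ℕ) (s : ℝ) (x : ℤ × Tri n) : ctr n s x 1 = 1 + 2 * py n s x.1 x.2 := rfl

theorem dist_sq2 (p q : E2) : dist p q ^ 2 = (p 0 - q 0) ^ 2 + (p 1 - q 1) ^ 2 := by
  rw [EuclideanSpace.dist_eq, Real.sq_sqrt (by positivity), Fin.sum_univ_two, Real.dist_eq,
    Real.dist_eq, sq_abs, sq_abs]

theorem two_le_dist {n : ℕ} {s : ℝ} (hs0 : 0 ≤ s) (hs1 : s < h0) {x y : ℤ × Tri n}
    (hne : x ≠ y) : 2 ≤ dist (ctr n s x) (ctr n s y) := by
  have h1 := sep hs0 hs1 x.2.2 y.2.2 (m := x.1) (m' := y.1) (by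
    rintro ⟨e1, e2⟩
    exact hne (Prod.ext e1 (Subtype.ext e2)))
  have h2 := dist_sq2 (ctr n s x) (ctr n s y)
  rw [ctr_zero, ctr_zero, ctr_one, ctr_one] at h2
  have h3 : (0 : ℝ) ≤ dist (ctr n s x) (ctr n s y) := dist_nonneg
  nlinarith

theorem ctr_inj {n : ℕ} {s : ℝ} (hs0 : 0 ≤ s) (hs1 : s < h0) :
    Function.Injective (ctr n s) := by
  intro x y h
  by_contra hne
  have := two_le_dist hs0 hs1 hne
  rw [h, dist_self] at this
  linarith

theorem packing {n : ℕ} {s : ℝ} (hs0 : 0 ≤ s) (hs1 : s < h0) :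
    IsStripPacking (2 + 2 * (n * h0 + s)) (Set.range (ctr n s)) := by
  constructor
  · rintro c ⟨x, rfl⟩ p hp
    rw [Metric.mem_closedBall] at hp
    have h1 := dist_sq2 p (ctr n s x)
    have h2 : dist p (ctr n s x) ^ 2 ≤ 1 := by
      have h3 : (0 : ℝ) ≤ dist p (ctr n s x) := dist_nonneg
      nlinarith
    have h3 : (p 1 - ctr n s x 1) ^ 2 ≤ 1 := by nlinarith [sq_nonneg (p 0 - ctr n s x 0)]
    have h4 := abs_le.1 (abs_le_of_sq_le_sq (by linarith : (p 1 - ctr n s x 1) ^ 2 ≤ 1 ^ 2)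
      zero_le_one)
    obtain ⟨h5, h6⟩ := py_mem hs0 x.1 x.2.2
    rw [ctr_one] at h4
    constructor <;> linarith [h4.1, h4.2]
  · rintro c ⟨x, rfl⟩ c' ⟨y, rfl⟩ hne
    apply Metric.ball_disjoint_ball
    have := two_le_dist (n := n) hs0 hs1 (x := x) (y := y) (fun e => hne (by rw [e]))
    linarith

/-! ### Areas -/

theorem strip_ge {w : ℝ} (hw : 0 ≤ w) {O : E2} {r : ℝ} (hr : |O 1| + w ≤ r) :
    2 * w * (r - (|O 1| + w)) ≤ (volume (Strip w ∩ Metric.closedBall O r)).toReal := by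
  have hO := abs_nonneg (O 1)
  set D := |O 1| + w with hD
  have hmp := PiLp.volume_preserving_ofLp (Fin 2)
  let R : Set (Fin 2 → ℝ) := Set.Icc ![O 0 - (r - D), 0] ![O 0 + (r - D), w]
  have hR : volume R = ENNReal.ofReal (2 * w * (r - D)) := by
    show volume (Set.Icc ![O 0 - (r - D), 0] ![O 0 + (r - D), w]) = _
    rw [Real.volume_Icc_pi, Fin.prod_univ_two]
    simp only [Matrix.cons_val_zero, Matrix.cons_val_one]
    rw [← ENNReal.ofReal_mul (by linarith)]
    congr 1
    ring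
  have hsub : (@WithLp.ofLp 2 (Fin 2 → ℝ)) ⁻¹' R ⊆ Strip w ∩ Metric.closedBall O r := by
    intro p hp
    rw [Set.mem_preimage] at hp
    have h0 := hp.1 0
    have h1 := hp.1 1
    have h2 := hp.2 0
    have h3 := hp.2 1
    simp only [Matrix.cons_val_zero, Matrix.cons_val_one] at h0 h1 h2 h3
    refine ⟨⟨h1, h3⟩, ?_⟩
    rw [Metric.mem_closedBall]
    apply abs_le_of_sq_le_sq' _ (by linarith) |>.2
    rw [dist_sq2]
    have h4 : (p 1 - O 1) ^ 2 ≤ D ^ 2 := by
      apply sq_le_sq'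
      · have := le_abs_self (O 1)
        change 0 ≤ p 1 at h1
        linarith
      · have := neg_abs_le (O 1)
        change p 1 ≤ w at h3
        linarith
    have h5 : (p 0 - O 0) ^ 2 ≤ (r - D) ^ 2 := by
      apply sq_le_sq'
      · change O 0 - (r - D) ≤ p 0 at h0
        linarith
      · change p 0 ≤ O 0 + (r - D) at h2
        linarith
    nlinarith
  have h1 : volume R ≤ volume (Strip w ∩ Metric.closedBall O r) := by
    rw [← hmp.measure_preimage measurableSet_Icc.nullMeasurableSet]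
    exact measure_mono hsub
  have h2 : volume (Strip w ∩ Metric.closedBall O r) ≠ ⊤ :=
    ne_top_of_le_ne_top (measure_closedBall_lt_top (x := O) (r := r)).ne
      (measure_mono Set.inter_subset_right)
  rw [hR] at h1
  have h3 := ENNReal.toReal_mono h2 h1
  rwa [ENNReal.toReal_ofReal] at h3
  have : 0 ≤ r - D := by linarith
  positivity

theorem strip_le {w : ℝ} (hw : 0 ≤ w) {O : E2} {r : ℝ} (hr : 0 ≤ r) :
    (volume (Strip w ∩ Metric.closedBall O r)).toReal ≤ 2 * w * r := by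
  have hmp := PiLp.volume_preserving_ofLp (Fin 2)
  let R : Set (Fin 2 → ℝ) := Set.Icc ![O 0 - r, 0] ![O 0 + r, w]
  have hR : volume R = ENNReal.ofReal (2 * w * r) := by
    show volume (Set.Icc ![O 0 - r, 0] ![O 0 + r, w]) = _
    rw [Real.volume_Icc_pi, Fin.prod_univ_two]
    simp only [Matrix.cons_val_zero, Matrix.cons_val_one]
    rw [← ENNReal.ofReal_mul (by linarith)]
    congr 1
    ring
  have hsub : Strip w ∩ Metric.closedBall O r ⊆ (@WithLp.ofLp 2 (Fin 2 → ℝ)) ⁻¹' R := by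
    rintro p ⟨⟨hp0, hp1⟩, hp⟩
    rw [Metric.mem_closedBall] at hp
    have h1 : dist p O ^ 2 ≤ r ^ 2 := pow_le_pow_left₀ dist_nonneg hp 2
    rw [dist_sq2] at h1
    have h2 : (p 0 - O 0) ^ 2 ≤ r ^ 2 := by nlinarith [sq_nonneg (p 1 - O 1)]
    have h3 := abs_le.1 (abs_le_of_sq_le_sq h2 hr)
    rw [Set.mem_preimage]
    constructor
    · intro i
      fin_cases i
      · change O 0 - r ≤ p 0
        linarith [h3.1]
      · exact hp0
    · intro i
      fin_cases i
      · change p 0 ≤ O 0 + r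
        linarith [h3.2]
      · exact hp1
  have h1 : volume (Strip w ∩ Metric.closedBall O r) ≤ volume R := by
    rw [← hmp.measure_preimage measurableSet_Icc.nullMeasurableSet]
    exact measure_mono hsub
  rw [hR] at h1
  exact ENNReal.toReal_le_of_le_ofReal (by positivity) h1

theorem vol_ball (c : E2) : volume (Metric.closedBall c 1) = ENNReal.ofReal Real.pi := by
  rw [EuclideanSpace.volume_closedBall_fin_two]
  simp [ENNReal.ofReal]

section

variable {n : ℕ} {s : ℝ}

theorem t_pos (hs0 : 0 ≤ s) (hs1 : s < h0) : 0 < (n : ℝ) / 2 + g s := by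
  have hg := g_gt_half hs0 hs1
  have cn : (0 : ℝ) ≤ n := Nat.cast_nonneg n
  positivity

theorem tri_real {p : Σ _ : ℕ, ℕ} (hp : p ∈ Tri n) :
    0 ≤ (p.2 : ℝ) + p.1 / 2 ∧ (p.2 : ℝ) + p.1 / 2 ≤ n := by
  rw [mem_tri] at hp
  have hp1 : (p.1 : ℝ) + p.2 ≤ n := by exact_mod_cast hp
  have c1 : (0 : ℝ) ≤ p.1 := Nat.cast_nonneg _
  exact ⟨by positivity, by linarith⟩

theorem covered_eq (hs0 : 0 ≤ s) (hs1 : s < h0) (O : E2) (r : ℝ) :
    coveredArea (Set.range (ctr n s)) O r =
      (∑' x : ℤ × Tri n, volume (Metric.closedBall (ctr n s x) 1 ∩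
        Metric.closedBall O r)).toReal := by
  unfold coveredArea
  rw [tsum_range (fun c : E2 => volume (Metric.closedBall c 1 ∩ Metric.closedBall O r))
    (ctr_inj hs0 hs1)]

/-- Only finitely many blocks meet the disc. -/
theorem tsum_le (hs0 : 0 ≤ s) (hs1 : s < h0) (O : E2) {r : ℝ} (hr : 0 ≤ r) :
    ∑' x : ℤ × Tri n, volume (Metric.closedBall (ctr n s x) 1 ∩ Metric.closedBall O r) ≤
      ENNReal.ofReal (Real.pi * ((Tri n).card * ((r + 1 + n) / (n / 2 + g s) + 1))) := by
  classical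
  have ht := t_pos (n := n) hs0 hs1
  set t := (n : ℝ) / 2 + g s with htdef
  have cn : (0 : ℝ) ≤ n := Nat.cast_nonneg n
  set A : ℝ := (O 0 - r - 1 - 2 * n) / (2 * t) with hA
  set B : ℝ := (O 0 + r + 1) / (2 * t) with hB
  have hz : ∀ x ∉ (Finset.Icc ⌈A⌉ ⌊B⌋) ×ˢ (Finset.univ : Finset (Tri n)),
      volume (Metric.closedBall (ctr n s x) 1 ∩ Metric.closedBall O r) = 0 := by
    intro x hx
    have h1 : ¬ dist (ctr n s x) O ≤ r + 1 := by
      intro h
      apply hx
      rw [Finset.mem_product]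
      refine ⟨?_, Finset.mem_univ _⟩
      have h2 : dist (ctr n s x) O ^ 2 ≤ (r + 1) ^ 2 := pow_le_pow_left₀ dist_nonneg h 2
      rw [dist_sq2] at h2
      have h3 : (ctr n s x 0 - O 0) ^ 2 ≤ (r + 1) ^ 2 := by
        nlinarith [sq_nonneg (ctr n s x 1 - O 1)]
      have h4 := abs_le.1 (abs_le_of_sq_le_sq h3 (by linarith))
      rw [ctr_zero] at h4
      unfold px at h4
      rw [← htdef] at h4
      obtain ⟨h5, h6⟩ := tri_real x.2.2
      rw [Finset.mem_Icc, Int.ceil_le, Int.le_floor, hA, hB, div_le_iff₀ (by positivity),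
        le_div_iff₀ (by positivity)]
      constructor <;> linarith [h4.1, h4.2]
    have h2 : Metric.closedBall (ctr n s x) 1 ∩ Metric.closedBall O r = ∅ := by
      rw [Set.eq_empty_iff_forall_notMem]
      rintro y ⟨hy1, hy2⟩
      apply h1
      rw [Metric.mem_closedBall] at hy1 hy2
      calc dist (ctr n s x) O ≤ dist (ctr n s x) y + dist y O := dist_triangle _ _ _
        _ ≤ 1 + r := by
          rw [dist_comm] at hy1
          exact add_le_add hy1 hy2
        _ = r + 1 := by ring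
    rw [h2, measure_empty]
  rw [tsum_eq_sum hz]
  have hAB : A ≤ B := by
    rw [hA, hB]
    gcongr
    linarith
  have hcard : (((Finset.Icc ⌈A⌉ ⌊B⌋).card : ℕ) : ℝ) ≤ (r + 1 + n) / t + 1 := by
    rw [Int.card_Icc]
    have h1 : B - A = (r + 1 + n) / t := by
      rw [hA, hB]
      field_simp
      ring
    have h2 : (((⌊B⌋ + 1 - ⌈A⌉).toNat : ℤ) : ℝ) ≤ B - A + 1 := by
      rw [Int.toNat_eq_max]
      push_cast
      refine max_le ?_ (by linarith)
      have h3 := Int.floor_le B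
      have h4 := Int.le_ceil A
      linarith
    rw [h1] at h2
    exact_mod_cast h2
  calc ∑ x ∈ (Finset.Icc ⌈A⌉ ⌊B⌋) ×ˢ (Finset.univ : Finset (Tri n)),
        volume (Metric.closedBall (ctr n s x) 1 ∩ Metric.closedBall O r)
      ≤ ∑ _x ∈ (Finset.Icc ⌈A⌉ ⌊B⌋) ×ˢ (Finset.univ : Finset (Tri n)),
        ENNReal.ofReal Real.pi := by
        refine Finset.sum_le_sum fun x _ => ?_
        rw [← vol_ball (ctr n s x)]
        exact measure_mono Set.inter_subset_left
    _ = ENNReal.ofReal (Real.pi * ((Tri n).card * (((Finset.Icc ⌈A⌉ ⌊B⌋).card : ℕ) : ℝ))) := by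
        rw [Finset.sum_const, Finset.card_product, nsmul_eq_mul, Finset.card_univ,
          Fintype.card_coe, ENNReal.ofReal_mul Real.pi_pos.le, ← Nat.cast_mul,
          ENNReal.ofReal_natCast, mul_comm, mul_comm (Tri n).card]
    _ ≤ _ := by
        apply ENNReal.ofReal_le_ofReal
        have hp := Real.pi_pos
        gcongr

/-- The blocks well inside the disc. -/
theorem le_tsum (hs0 : 0 ≤ s) (hs1 : s < h0) (O : E2) {r : ℝ}
    (hr : |O 1| + (2 + 2 * (n * h0 + s)) + 1 ≤ r) :
    ENNReal.ofReal (Real.pi * ((Tri n).card *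
      ((r - 1 - (|O 1| + (2 + 2 * (n * h0 + s))) - n) / (n / 2 + g s) - 1))) ≤
    ∑' x : ℤ × Tri n, volume (Metric.closedBall (ctr n s x) 1 ∩ Metric.closedBall O r) := by
  classical
  have ht := t_pos (n := n) hs0 hs1
  set t := (n : ℝ) / 2 + g s with htdef
  have cn : (0 : ℝ) ≤ n := Nat.cast_nonneg n
  set D : ℝ := |O 1| + (2 + 2 * (n * h0 + s)) with hD
  set A : ℝ := (O 0 - (r - 1 - D)) / (2 * t) with hA
  set B : ℝ := (O 0 + (r - 1 - D) - 2 * n) / (2 * t) with hB
  have hin : ∀ x ∈ (Finset.Icc ⌈A⌉ ⌊B⌋) ×ˢ (Finset.univ : Finset (Tri n)),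
      volume (Metric.closedBall (ctr n s x) 1 ∩ Metric.closedBall O r) =
        ENNReal.ofReal Real.pi := by
    intro x hx
    rw [Finset.mem_product, Finset.mem_Icc, Int.ceil_le, Int.le_floor, hA, hB,
      div_le_iff₀ (by positivity), le_div_iff₀ (by positivity)] at hx
    obtain ⟨⟨h1, h2⟩, -⟩ := hx
    obtain ⟨h5, h6⟩ := tri_real x.2.2
    obtain ⟨h7, h8⟩ := py_mem hs0 x.1 x.2.2
    have h9 : dist (ctr n s x) O ≤ r - 1 := by
      apply abs_le_of_sq_le_sq' _ (by linarith [abs_nonneg (O 1), h7, h8]) |>.2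
      rw [dist_sq2, ctr_zero, ctr_one]
      unfold px
      rw [← htdef]
      have e1 : (2 * (x.1 * t + (x.2 : Σ _ : ℕ, ℕ).2 + (x.2 : Σ _ : ℕ, ℕ).1 / 2) - O 0) ^ 2 ≤
          (r - 1 - D) ^ 2 := by
        apply sq_le_sq' <;> linarith
      have e2 : (1 + 2 * py n s x.1 x.2 - O 1) ^ 2 ≤ D ^ 2 := by
        apply sq_le_sq'
        · linarith [le_abs_self (O 1), h7, h8]
        · linarith [neg_abs_le (O 1), h7, h8]
      have e3 : 0 ≤ r - 1 - D := by linarith
      have e4 : 0 ≤ D := by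
        have := abs_nonneg (O 1)
        have := h0_pos
        positivity
      nlinarith
    rw [Set.inter_eq_left.2, vol_ball]
    intro y hy
    rw [Metric.mem_closedBall] at hy ⊢
    linarith [dist_triangle y (ctr n s x) O]
  have hcard : (r - 1 - D - n) / t - 1 ≤ (((Finset.Icc ⌈A⌉ ⌊B⌋).card : ℕ) : ℝ) := by
    rw [Int.card_Icc]
    have h1 : B - A = (r - 1 - D - n) / t := by
      rw [hA, hB]
      field_simp
      ring
    have h2 : B - A - 1 ≤ (((⌊B⌋ + 1 - ⌈A⌉).toNat : ℤ) : ℝ) := by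
      rw [Int.toNat_eq_max]
      push_cast
      refine le_max_of_le_left ?_
      have h3 := Int.lt_floor_add_one B
      have h4 := Int.ceil_lt_add_one A
      linarith
    rw [h1] at h2
    exact_mod_cast h2
  calc ENNReal.ofReal (Real.pi * ((Tri n).card * ((r - 1 - D - n) / t - 1)))
      ≤ ENNReal.ofReal (Real.pi * ((Tri n).card * (((Finset.Icc ⌈A⌉ ⌊B⌋).card : ℕ) : ℝ))) := by
        apply ENNReal.ofReal_le_ofReal
        have hp := Real.pi_pos
        gcongr
    _ = ∑ _x ∈ (Finset.Icc ⌈A⌉ ⌊B⌋) ×ˢ (Finset.univ : Finset (Tri n)),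
        ENNReal.ofReal Real.pi := by
        rw [Finset.sum_const, Finset.card_product, nsmul_eq_mul, Finset.card_univ,
          Fintype.card_coe, ENNReal.ofReal_mul Real.pi_pos.le, ← Nat.cast_mul,
          ENNReal.ofReal_natCast, mul_comm, mul_comm (Tri n).card]
    _ = ∑ x ∈ (Finset.Icc ⌈A⌉ ⌊B⌋) ×ˢ (Finset.univ : Finset (Tri n)),
        volume (Metric.closedBall (ctr n s x) 1 ∩ Metric.closedBall O r) :=
        Finset.sum_congr rfl fun x hx => (hin x hx).symm
    _ ≤ _ := ENNReal.sum_le_tsum _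

end

theorem lim_aff (a b d : ℝ) {c : ℝ} (hc : 0 < c) :
    Tendsto (fun r : ℝ => (a * r + b) / (c * r + d)) atTop (𝓝 (a / c)) := by
  have h1 : Tendsto (fun r : ℝ => c * r + d) atTop atTop :=
    tendsto_atTop_add_const_right _ _ (tendsto_id.const_mul_atTop hc)
  have h2 : Tendsto (fun r : ℝ => a / c + (b - a * d / c) / (c * r + d)) atTop
      (𝓝 (a / c + 0)) := tendsto_const_nhds.add (Tendsto.div_atTop tendsto_const_nhds h1)
  rw [add_zero] at h2
  refine h2.congr' ?_
  filter_upwards [h1.eventually_gt_atTop 0] with r hr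
  field_simp
  ring

/-- The density of Molnar's packing. -/
theorem density {n : ℕ} {s : ℝ} (hs0 : 0 ≤ s) (hs1 : s < h0) (O : E2) :
    HasDensity (2 + 2 * (n * h0 + s)) (Set.range (ctr n s)) O
      (Real.pi * (Tri n).card / (2 * (2 + 2 * (n * h0 + s)) * (n / 2 + g s))) := by
  have ht := t_pos (n := n) hs0 hs1
  have cn : (0 : ℝ) ≤ n := Nat.cast_nonneg n
  have hh := h0_pos
  have hp := Real.pi_pos
  set t := (n : ℝ) / 2 + g s with htdef
  set w : ℝ := 2 + 2 * (n * h0 + s) with hw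
  have hw0 : 0 < w := by
    rw [hw]
    positivity
  set D : ℝ := |O 1| + w with hD
  have hD0 : 0 < D := by
    have := abs_nonneg (O 1)
    linarith
  set N : ℝ := ((Tri n).card : ℝ) with hN
  have hN0 : 0 ≤ N := Nat.cast_nonneg _
  have hup := lim_aff (Real.pi * N / t) (Real.pi * N * ((1 + n) / t + 1)) (-(2 * w * D))
    (c := 2 * w) (by positivity)
  have hlo := lim_aff (Real.pi * N / t) (Real.pi * N * ((-1 - D - n) / t - 1)) 0
    (c := 2 * w) (by positivity)
  have e : Real.pi * N / t / (2 * w) = Real.pi * N / (2 * w * t) := by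
    field_simp
  rw [e] at hup hlo
  unfold HasDensity
  refine tendsto_of_tendsto_of_tendsto_of_le_of_le' hlo hup ?_ ?_
  · filter_upwards [eventually_ge_atTop (D + 1), eventually_ge_atTop (1 + D + n + t)] with r hr hr2
    have hr0 : 0 < r := by linarith
    have h1 := le_tsum (n := n) hs0 hs1 O (r := r) (by linarith)
    have h2 := tsum_le (n := n) hs0 hs1 O (r := r) hr0.le
    rw [← htdef, ← hw, ← hD, ← hN] at h1
    have h3 : Real.pi * (N * ((r - 1 - D - n) / t - 1)) ≤
        coveredArea (Set.range (ctr n s)) O r := by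
      rw [covered_eq hs0 hs1]
      have h4 := ENNReal.toReal_mono (ne_top_of_le_ne_top ENNReal.ofReal_ne_top h2) h1
      refine le_trans ?_ h4
      rw [ENNReal.toReal_ofReal]
      have h5 : 0 ≤ (r - 1 - D - n) / t - 1 := by
        rw [sub_nonneg, le_div_iff₀ ht]
        linarith
      positivity
    have h4 := strip_le hw0.le (O := O) hr0.le
    have h5 : 0 ≤ coveredArea (Set.range (ctr n s)) O r := ENNReal.toReal_nonneg
    have h6 : 0 < (volume (Strip w ∩ Metric.closedBall O r)).toReal := by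
      have h7 := strip_ge hw0.le (O := O) (r := r) (by linarith)
      have h8 : 0 < 2 * w * (r - (|O 1| + w)) := by
        have : 0 < r - (|O 1| + w) := by linarith
        positivity
      linarith
    calc (Real.pi * N / t * r + Real.pi * N * ((-1 - D - n) / t - 1)) / (2 * w * r + 0)
        = Real.pi * (N * ((r - 1 - D - n) / t - 1)) / (2 * w * r) := by
          congr 1
          · field_simp
            ring
          · ring
      _ ≤ coveredArea (Set.range (ctr n s)) O r / (2 * w * r) :=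
          div_le_div_of_nonneg_right h3 (by positivity)
      _ ≤ _ := div_le_div_of_nonneg_left h5 h6 h4
  · filter_upwards [eventually_gt_atTop D] with r hr
    have hr0 : 0 < r := by linarith
    have h2 := tsum_le (n := n) hs0 hs1 O (r := r) hr0.le
    rw [← htdef, ← hN] at h2
    have h3 : coveredArea (Set.range (ctr n s)) O r ≤
        Real.pi * (N * ((r + 1 + n) / t + 1)) := by
      rw [covered_eq hs0 hs1]
      exact ENNReal.toReal_le_of_le_ofReal (by positivity) h2
    have h4 := strip_ge hw0.le (O := O) (r := r) (by linarith)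
    rw [← hD] at h4
    have h5 : 0 < 2 * w * (r - D) := by
      have : 0 < r - D := by linarith
      positivity
    calc coveredArea (Set.range (ctr n s)) O r / (volume (Strip w ∩ Metric.closedBall O r)).toReal
        ≤ Real.pi * (N * ((r + 1 + n) / t + 1)) / (2 * w * (r - D)) :=
          div_le_div₀ (by positivity) h3 h5 h4
      _ = _ := by
          congr 1
          · field_simp
            ring
          · ring

/-- **Molnar's packing**: for every width `w ≥ 2` some packing has, about every point, the density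
`M(w)`. -/
theorem exists_molnar {w : ℝ} (hw : 2 ≤ w) :
    ∃ C : Set E2, IsStripPacking w C ∧ ∀ O : E2, HasDensity w C O (molnar w) := by
  obtain ⟨hs0, hs1, hH⟩ := rest_spec hw
  have hwe : 2 + 2 * ((rowNumber w : ℝ) * h0 + rest w) = w := by linarith
  have h1 := packing (n := rowNumber w) hs0 hs1
  rw [hwe] at h1
  refine ⟨_, h1, fun O => ?_⟩
  have h2 := density (n := rowNumber w) hs0 hs1 O
  rw [hwe] at h2
  convert h2 using 1
  set n := rowNumber w with hn
  have hg := g_gt_half hs0 hs1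
  have cn : (0 : ℝ) ≤ n := Nat.cast_nonneg n
  have hc : ((Tri n).card : ℝ) = (n + 1) * (n + 2) / 2 := by
    have h3 := card_tri n
    have h4 : (2 : ℝ) * (Tri n).card = (n + 1) * (n + 2) := by exact_mod_cast h3
    linarith
  unfold molnar
  rw [← hn]
  have e : Real.sqrt (4 - (w - 2 - Real.sqrt 3 * n) ^ 2) = 2 * g (rest w) := by
    unfold g rest
    rw [← hn, show 4 - (w - 2 - Real.sqrt 3 * n) ^ 2 =
      2 ^ 2 * (1 - ((w - 2 - Real.sqrt 3 * n) / 2) ^ 2) by ring,
      Real.sqrt_mul (by norm_num), Real.sqrt_sq (by norm_num)]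
  rw [e, hc]
  have h5 : (n : ℝ) + 2 * g (rest w) ≠ 0 := by positivity
  have h6 : (n : ℝ) / 2 + g (rest w) ≠ 0 := by positivity
  have h7 : w ≠ 0 := by linarith
  field_simp

end Pool.Agent.Strip051.LC.Final
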