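import Pool.Agent.Strip051.LC.Exact.Rest0
import Pool.Agent.Strip051.LC.Final.Lower

/-! # The exact value

The largest density of a packing in the strip of width `w` is Molnar's `M(w)`. -/

namespace Pool.Agent.Strip051.LC.Final

open Pool.Agent.StripNear Pool.Agent.Strip051 Pool.Agent.Strip051.LC
open Pool.Agent.StripTwo (rowNumber molnar)

/-- From the upper bound at one width to the exact value. -/
theorem isGreatest_of_le {w : ℝ} (hw : 2 ≤ w) (O : E2)
    (h : ∀ C : Set E2, IsStripPacking w C → ∀ d : ℝ, HasDensity w C O d → d ≤ molnar w) :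
    IsGreatest {d : ℝ | ∃ C : Set E2, IsStripPacking w C ∧ HasDensity w C O d} (molnar w) := by
  constructor
  · obtain ⟨C, hC, hd⟩ := exists_molnar hw
    exact ⟨C, hC, hd O⟩
  · rintro d ⟨C, hC, hd⟩
    exact h C hC d hd

/-- **The exact value** for all widths at least `2 + 2 √3`, from the exact counts. -/
theorem isGreatest_of_good (h2 : ∀ s, 0 ≤ s → s < h0 → CountBound 2 s)
    (h3 : ∀ s, 0 < s → s < h0 → Good s) {w : ℝ} (hw : 2 + 2 * Real.sqrt 3 ≤ w) (O : E2) :
    IsGreatest {d : ℝ | ∃ C : Set E2, IsStripPacking w C ∧ HasDensity w C O d} (molnar w) := by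
  have k3 : 0 < Real.sqrt 3 := Real.sqrt_pos.2 (by norm_num)
  exact isGreatest_of_le (by linarith) O fun C hC d hd => molnar_from_pos h2 h3 hw hC hd

end Pool.Agent.Strip051.LC.Final
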