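import Pool.Agent.Strip051.LC.Final.Steps
import Pool.Agent.Strip051.LC.Final.Exact
import Pool.Agent.Strip051.Rows2.All
import Pool.Agent.Strip051.LC.E0.Good0
import Pool.Agent.Strip051.G.IE1.Fin
import Pool.Agent.Strip051.G.I1_32_3_64.Fin
import Pool.Agent.Strip051.G.I3_64_1_16.Fin
import Pool.Agent.Strip051.G.I1_16_1_8.Fin
import Pool.Agent.Strip051.G.I1_8_3_16.Fin
import Pool.Agent.Strip051.G.I3_16_5_16.Fin
import Pool.Agent.Strip051.G.I5_16_3_8.Fin
import Pool.Agent.Strip051.G.I3_8_7_16.Fin
import Pool.Agent.Strip051.G.I7_16_1_2.Fin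
import Pool.Agent.Strip051.G.I5000_5470.Fin
import Pool.Agent.Strip051.G.I5470_6050.Fin
import Pool.Agent.Strip051.G.I6050_6500.Fin
import Pool.Agent.Strip051.G.I6500_6900.Fin
import Pool.Agent.Strip051.G.I69_7273.Fin
import Pool.Agent.Strip051.G.I72727_7625.Fin
import Pool.Agent.Strip051.G.I7625_8000.Fin
import Pool.Agent.Strip051.G.I8000_8600.Fin
import Pool.Agent.Strip051.G.I8600_9000.Fin
import Pool.Agent.Strip051.G.I9000_9231.Fin
import Pool.Agent.Strip051.G.I9231_9500.Fin
import Pool.Agent.Strip051.G.I9500_9625.Fin
import Pool.Agent.Strip051.G.I9625_9688.Fin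
import Pool.Agent.Strip051.G.I9688_9736.Fin
import Pool.Agent.Strip051.G.I9736_9750.Fin

/-! # All rests

The exact counts for all positive rests, from the small rests, the tables and the large rests, and the
exact value of the density. -/

namespace Pool.Agent.Strip051.LC.Final

open Pool.Agent.StripNear Pool.Agent.Strip051 Pool.Agent.Strip051.LC
open Pool.Agent.StripTwo (molnar)

theorem on_I1_32_3_64 : On 33554432 16777216 := fun _ h h' => G.I1_32_3_64.good_on h h'

theorem on_I3_64_1_16 : On 50331648 16777216 := fun _ h h' => G.I3_64_1_16.good_on h h'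

theorem on_I1_16_1_8 : On 67108864 67108864 := fun _ h h' => G.I1_16_1_8.good_on h h'

theorem on_I1_8_3_16 : On 134217728 67108864 := fun _ h h' => G.I1_8_3_16.good_on h h'

theorem on_I3_16_5_16 : On 201326592 134217728 := fun _ h h' => G.I3_16_5_16.good_on h h'

theorem on_I5_16_3_8 : On 335544320 67108864 := fun _ h h' => G.I5_16_3_8.good_on h h'

theorem on_I3_8_7_16 : On 402653184 67108864 := fun _ h h' => G.I3_8_7_16.good_on h h'

theorem on_I7_16_1_2 : On 469762048 67108864 := fun _ h h' => G.I7_16_1_2.good_on h h'

theorem on_I5000_5470 : On 536870912 50465866 := fun _ h h' => G.I5000_5470.good_on h h'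

theorem on_I5470_6050 : On 587336777 62277027 := fun _ h h' => G.I5470_6050.good_on h h'

theorem on_I6050_6500 : On 649613803 48318383 := fun _ h h' => G.I6050_6500.good_on h h'

theorem on_I6500_6900 : On 697932185 42949674 := fun _ h h' => G.I6500_6900.good_on h h'

theorem on_I69_7273 : On 740881858 40050571 := fun _ h h' => G.I69_7273.good_on h h'

theorem on_I72727_7625 : On 780900216 37827925 := fun _ h h' => G.I72727_7625.good_on h h'

theorem on_I7625_8000 : On 818728140 40265320 := fun _ h h' => G.I7625_8000.good_on h h'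

theorem on_I8000_8600 : On 858993459 64424510 := fun _ h h' => G.I8000_8600.good_on h h'

theorem on_I8600_9000 : On 923417968 42949674 := fun _ h h' => G.I8600_9000.good_on h h'

theorem on_I9000_9231 : On 966367641 24778659 := fun _ h h' => G.I9000_9231.good_on h h'

theorem on_I9231_9500 : On 991146299 28908434 := fun _ h h' => G.I9231_9500.good_on h h'

theorem on_I9500_9625 : On 1020054732 13421774 := fun _ h h' => G.I9500_9625.good_on h h'

theorem on_I9625_9688 : On 1033476505 6710887 := fun _ h h' => G.I9625_9688.good_on h h'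

theorem on_I9688_9736 : On 1040187392 5207648 := fun _ h h' => G.I9688_9736.good_on h h'

theorem on_I9736_9750 : On 1045395039 1503240 := fun _ h h' => G.I9736_9750.good_on h h'

/-- The exact counts for all positive rests. -/
theorem good_pos : ∀ s : ℝ, 0 < s → s < h0 → Good s := by
  have u0 : Upto 33554432 := Upto.zero (e := 11 / 400) (fun s h h' => E0.good0 s h h') (by norm_num)
  have u1 : Upto 50331648 := u0.step on_I1_32_3_64 (by norm_num)
  have u2 : Upto 67108864 := u1.step on_I3_64_1_16 (by norm_num)
  have u3 : Upto 134217728 := u2.step on_I1_16_1_8 (by norm_num)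
  have u4 : Upto 201326592 := u3.step on_I1_8_3_16 (by norm_num)
  have u5 : Upto 335544320 := u4.step on_I3_16_5_16 (by norm_num)
  have u6 : Upto 402653184 := u5.step on_I5_16_3_8 (by norm_num)
  have u7 : Upto 469762048 := u6.step on_I3_8_7_16 (by norm_num)
  have u8 : Upto 536870912 := u7.step on_I7_16_1_2 (by norm_num)
  have u9 : Upto 587336778 := u8.step on_I5000_5470 (by norm_num)
  have u10 : Upto 649613804 := u9.step on_I5470_6050 (by norm_num)
  have u11 : Upto 697932186 := u10.step on_I6050_6500 (by norm_num)
  have u12 : Upto 740881859 := u11.step on_I6500_6900 (by norm_num)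
  have u13 : Upto 780932429 := u12.step on_I69_7273 (by norm_num)
  have u14 : Upto 818728141 := u13.step on_I72727_7625 (by norm_num)
  have u15 : Upto 858993460 := u14.step on_I7625_8000 (by norm_num)
  have u16 : Upto 923417969 := u15.step on_I8000_8600 (by norm_num)
  have u17 : Upto 966367642 := u16.step on_I8600_9000 (by norm_num)
  have u18 : Upto 991146300 := u17.step on_I9000_9231 (by norm_num)
  have u19 : Upto 1020054733 := u18.step on_I9231_9500 (by norm_num)
  have u20 : Upto 1033476506 := u19.step on_I9500_9625 (by norm_num)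
  have u21 : Upto 1040187392 := u20.step on_I9625_9688 (by norm_num)
  have u22 : Upto 1045395040 := u21.step on_I9688_9736 (by norm_num)
  have u23 : Upto 1046898279 := u22.step on_I9736_9750 (by norm_num)
  exact u23.all (e := 39 / 40) (fun x h h' => G.IE1.good1 x h h') (by norm_num)

/-- **The exact value** for all widths at least `2 + 2 √3`. -/
theorem molnar_exact {w : ℝ} (hw : 2 + 2 * Real.sqrt 3 ≤ w) (O : E2) :
    IsGreatest {d : ℝ | ∃ C : Set E2, IsStripPacking w C ∧ HasDensity w C O d} (molnar w) :=
  isGreatest_of_good (fun _ h h' => Rows2.countBound h h') good_pos hw O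

end Pool.Agent.Strip051.LC.Final
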