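import Pool.Agent.Strip051.LC.Final.Steps
import Pool.Agent.Strip051.LC.Final.Exact

/-! # The exact value for bounded rests

The exact value of the density at the widths `w = 2 + (n + x) √3` with `x ≤ b / 2 ^ 30`, from the
exact counts at the rests `s ≤ h0 b / 2 ^ 30`. -/

namespace Pool.Agent.Strip051.LC.Final

open Pool.Agent.StripNear Pool.Agent.StripSquare Pool.Agent.Strip051 Pool.Agent.Strip051.LC
open Pool.Agent.StripTwo (rowNumber molnar)

theorem rest_eq {w : ℝ} (hw : 2 ≤ w) : rest w = h0 * Int.fract ((w - 2) / Real.sqrt 3) := by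
  have h3 : 0 < Real.sqrt 3 := Real.sqrt_pos.2 (by norm_num)
  have hq : 0 ≤ (w - 2) / Real.sqrt 3 := div_nonneg (by linarith) h3.le
  have e : (rowNumber w : ℝ) = ((⌊(w - 2) / Real.sqrt 3⌋ : ℤ) : ℝ) := by
    unfold rowNumber
    exact natCast_floor_eq_intCast_floor hq
  have e1 : Int.fract ((w - 2) / Real.sqrt 3) = (w - 2) / Real.sqrt 3 - rowNumber w := by
    rw [e]
    rfl
  have h00 : h0 = Real.sqrt 3 / 2 := rfl
  rw [e1, h00]
  unfold rest
  field_simp

/-- **Molnar's bound** for the widths with rest at most `h0 b / 2 ^ 30`. -/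
theorem molnar_upto {b : ℕ} (hb : 0 < b) (h2 : ∀ s, 0 ≤ s → s < h0 → CountBound 2 s)
    (h3 : Upto b) {w : ℝ} (hw : 2 + 2 * Real.sqrt 3 ≤ w)
    (hx : Int.fract ((w - 2) / Real.sqrt 3) ≤ (b : ℝ) / 1073741824) {C : Set E2}
    (hC : IsStripPacking w C) {O : E2} {d : ℝ} (hd : HasDensity w C O d) : d ≤ molnar w := by
  have k3 : 0 < Real.sqrt 3 := Real.sqrt_pos.2 (by norm_num)
  have hh := h0_pos
  have hw2 : 2 ≤ w := by linarith
  obtain ⟨r0, r1, -⟩ := rest_spec hw2
  have hrs : rest w ≤ h0 * ((b : ℝ) / 1073741824) := by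
    rw [rest_eq hw2]
    exact mul_le_mul_of_nonneg_left hx hh.le
  have hr : 2 ≤ rowNumber w := by
    unfold rowNumber
    refine Nat.le_floor ?_
    rw [le_div_iff₀ k3]
    push_cast
    linarith
  rcases hr.eq_or_lt with h | h
  · refine le_molnar_of_count hw2 ?_ hC hd
    rw [← h]
    exact h2 _ r0 r1
  · rcases r0.eq_or_lt with h0' | h0'
    · have hb' : (0 : ℝ) < b := by exact_mod_cast hb
      have hε : 0 < h0 * ((b : ℝ) / 1073741824) := by positivity
      exact molnar_of_right hw2 h0'.symm hε (fun s s0 s1 => h3 s s0 s1.le _ h) hC hd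
    · exact le_molnar_of_count hw2 (h3 _ h0' hrs _ h) hC hd

/-- **The exact value** for the widths with rest at most `h0 b / 2 ^ 30`. -/
theorem isGreatest_upto {b : ℕ} (hb : 0 < b) (h2 : ∀ s, 0 ≤ s → s < h0 → CountBound 2 s)
    (h3 : Upto b) {w : ℝ} (hw : 2 + 2 * Real.sqrt 3 ≤ w)
    (hx : Int.fract ((w - 2) / Real.sqrt 3) ≤ (b : ℝ) / 1073741824) (O : E2) :
    IsGreatest {d : ℝ | ∃ C : Set E2, IsStripPacking w C ∧ HasDensity w C O d} (molnar w) := by
  have k3 : 0 < Real.sqrt 3 := Real.sqrt_pos.2 (by norm_num)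
  exact isGreatest_of_le (by linarith) O fun C hC d hd => molnar_upto hb h2 h3 hw hx hC hd

/-- **The exact value** at one width from the exact counts at its rest (and at small rests). -/
theorem isGreatest_at {b : ℕ} (hb : 0 < b) (h2 : ∀ s, 0 ≤ s → s < h0 → CountBound 2 s)
    (h3 : Upto b) {w : ℝ} (hw : 2 + 2 * Real.sqrt 3 ≤ w) (hg : 0 < rest w → Good (rest w))
    (O : E2) :
    IsGreatest {d : ℝ | ∃ C : Set E2, IsStripPacking w C ∧ HasDensity w C O d} (molnar w) := by
  have k3 : 0 < Real.sqrt 3 := Real.sqrt_pos.2 (by norm_num)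
  have hh := h0_pos
  have hw2 : 2 ≤ w := by linarith
  obtain ⟨r0, r1, -⟩ := rest_spec hw2
  have hr : 2 ≤ rowNumber w := by
    unfold rowNumber
    refine Nat.le_floor ?_
    rw [le_div_iff₀ k3]
    push_cast
    linarith
  refine isGreatest_of_le hw2 O fun C hC d hd => ?_
  rcases hr.eq_or_lt with h | h
  · refine le_molnar_of_count hw2 ?_ hC hd
    rw [← h]
    exact h2 _ r0 r1
  · rcases r0.eq_or_lt with h0' | h0'
    · have hb' : (0 : ℝ) < b := by exact_mod_cast hb
      have hε : 0 < h0 * ((b : ℝ) / 1073741824) := by positivity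
      exact molnar_of_right hw2 h0'.symm hε (fun s s0 s1 => h3 s s0 s1.le _ h) hC hd
    · exact le_molnar_of_count hw2 (hg h0' _ h) hC hd

/-- **The exact value** for small and for large rests. -/
theorem isGreatest_two {b : ℕ} (hb : 0 < b) (h2 : ∀ s, 0 ≤ s → s < h0 → CountBound 2 s)
    (h3 : Upto b) {e : ℝ} (h4 : ∀ x : ℝ, e ≤ x → x < 1 → Good (h0 * x)) {w : ℝ}
    (hw : 2 + 2 * Real.sqrt 3 ≤ w)
    (hx : Int.fract ((w - 2) / Real.sqrt 3) ≤ (b : ℝ) / 1073741824 ∨
      e ≤ Int.fract ((w - 2) / Real.sqrt 3)) (O : E2) :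
    IsGreatest {d : ℝ | ∃ C : Set E2, IsStripPacking w C ∧ HasDensity w C O d} (molnar w) := by
  have k3 : 0 < Real.sqrt 3 := Real.sqrt_pos.2 (by norm_num)
  have hh := h0_pos
  have hw2 : 2 ≤ w := by linarith
  refine isGreatest_at hb h2 h3 hw (fun hs => ?_) O
  rw [rest_eq hw2] at hs ⊢
  rcases hx with hx | hx
  · exact h3 _ hs (mul_le_mul_of_nonneg_left hx hh.le)
  · exact h4 _ hx (Int.fract_lt_one _)

end Pool.Agent.Strip051.LC.Final
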