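import Pool.Agent.Strip051.LC.Exact.Rest0

/-! # Gluing the intervals of rests

Every certificate gives the exact counts at the rests `h0 x` with `x` in an interval whose ends are
multiples of `2 ^ (-30)`. -/

namespace Pool.Agent.Strip051.LC.Final

open Pool.Agent.StripNear Pool.Agent.StripSquare Pool.Agent.Strip051
open Pool.Agent.Strip051.LC

/-- The exact counts at the rests `h0 x` with `a / 2 ^ 30 ≤ x ≤ (a + w) / 2 ^ 30`. -/
def On (a w : ℕ) : Prop :=
  ∀ x : ℝ, ((a : ℕ) : ℝ) / ((1073741824 : ℕ) : ℝ) ≤ x →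
    x ≤ (((a : ℕ) : ℝ) + (w : ℕ)) / ((1073741824 : ℕ) : ℝ) → Good (h0 * x)

/-- The exact counts at the rests `s ≤ h0 b / 2 ^ 30`. -/
def Upto (b : ℕ) : Prop := ∀ s : ℝ, 0 < s → s ≤ h0 * ((b : ℝ) / 1073741824) → Good s

/-- The small rests. -/
theorem Upto.zero {e : ℝ} (h : ∀ s : ℝ, 0 < s → s ≤ e → Good s) {b : ℕ}
    (hb : 8661 / 10000 * ((b : ℝ) / 1073741824) ≤ e) : Upto b := by
  intro s hs hs1
  refine h s hs (hs1.trans (le_trans ?_ hb))
  have h1 := h0_lt
  have h2 : (0 : ℝ) ≤ (b : ℝ) / 1073741824 := by positivity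
  exact mul_le_mul_of_nonneg_right (by linarith) h2

theorem Upto.step {b a w : ℕ} (h1 : Upto b) (h2 : On a w) (h : a ≤ b) : Upto (a + w) := by
  intro s hs hs1
  have hh := h0_pos
  rcases le_or_gt s (h0 * ((b : ℝ) / 1073741824)) with h3 | h3
  · exact h1 s hs h3
  · have e : h0 * (s / h0) = s := by field_simp
    have h4 := h2 (s / h0) (by
      rw [le_div_iff₀ hh]
      have h5 : (a : ℝ) ≤ b := by exact_mod_cast h
      have h6 : (a : ℝ) / ((1073741824 : ℕ) : ℝ) * h0 ≤ h0 * ((b : ℝ) / 1073741824) := by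
        push_cast
        rw [mul_comm]
        gcongr
      exact h6.trans h3.le) (by
      rw [div_le_iff₀ hh]
      push_cast at hs1 ⊢
      linarith)
    rwa [e] at h4

/-- The large rests. -/
theorem Upto.all {b : ℕ} (h1 : Upto b) {e : ℝ} (h2 : ∀ x : ℝ, e ≤ x → x < 1 → Good (h0 * x))
    (h : e ≤ (b : ℝ) / 1073741824) : ∀ s, 0 < s → s < h0 → Good s := by
  intro s hs hs1
  have hh := h0_pos
  rcases le_or_gt s (h0 * ((b : ℝ) / 1073741824)) with h3 | h3
  · exact h1 s hs h3
  · have e2 : h0 * (s / h0) = s := by field_simp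
    have h4 := h2 (s / h0) (by
      rw [le_div_iff₀ hh]
      have : e * h0 ≤ h0 * ((b : ℝ) / 1073741824) := by
        rw [mul_comm]
        gcongr
      linarith) (by
      rw [div_lt_one hh]
      exact hs1)
    rwa [e2] at h4

end Pool.Agent.Strip051.LC.Final
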